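import Mathlib

/-!
# Coefficients of powers of polynomials with natural coefficients
-/

set_option autoImplicit false

open Finset Polynomial Nat

namespace Pool.Agent.L7h85.AC

/-- The weight of a type. -/
def wt (S : Finset ℕ) (β t : ℕ → ℕ) : ℕ := multinomial S t * ∏ i ∈ S, β i ^ t i

/-- The degree of a type. -/
def dg (S : Finset ℕ) (t : ℕ → ℕ) : ℕ := ∑ i ∈ S, i * t i

/-- The polynomial. -/
noncomputable def pol (S : Finset ℕ) (β : ℕ → ℕ) : ℕ[X] := ∑ i ∈ S, C (β i) * X ^ i

lemma coeff_pol_pow (S : Finset ℕ) (β : ℕ → ℕ) (M e : ℕ) :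
    ((pol S β) ^ M).coeff e = ∑ t ∈ (piAntidiag S M).filter (fun t => dg S t = e), wt S β t := by
  rw [pol, sum_pow_eq_sum_piAntidiag, finsetSum_coeff, sum_filter]
  refine sum_congr rfl fun t _ => ?_
  have h1 : ∏ i ∈ S, (C (β i) * X ^ i : ℕ[X]) ^ t i = C (∏ i ∈ S, β i ^ t i) * X ^ dg S t := by
    simp only [mul_pow, prod_mul_distrib, ← map_pow, ← pow_mul, prod_pow_eq_pow_sum, dg]
    rw [map_prod]
  rw [h1, ← mul_assoc, ← C_eq_natCast, Nat.cast_id, ← C_mul, coeff_C_mul, coeff_X_pow, wt]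
  by_cases h : dg S t = e
  · rw [if_pos h, if_pos h.symm, mul_one]
  · rw [if_neg h, if_neg (fun h' => h h'.symm), mul_zero]

lemma wt_le_coeff {S : Finset ℕ} {β t : ℕ → ℕ} {M : ℕ} (ht : t ∈ piAntidiag S M) :
    wt S β t ≤ ((pol S β) ^ M).coeff (dg S t) := by
  rw [coeff_pol_pow]
  exact single_le_sum (f := fun t => wt S β t) (fun _ _ => Nat.zero_le _)
    (mem_filter.2 ⟨ht, rfl⟩)

/-- The number of types. -/
lemma card_piAntidiag_le (S : Finset ℕ) (M : ℕ) : (piAntidiag S M).card ≤ (M + 1) ^ S.card := by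
  classical
  have h1 : (Fintype.piFinset fun _ : S => range (M + 1)).card = (M + 1) ^ S.card := by
    rw [Fintype.card_piFinset]
    simp only [card_range, prod_const, Finset.card_univ, Fintype.card_coe]
  rw [← h1]
  refine card_le_card_of_injOn (fun t (i : S) => t i) ?_ ?_
  · intro t ht
    have ht' := mem_piAntidiag.1 (mem_coe.1 ht)
    rw [mem_coe, Fintype.mem_piFinset]
    intro i
    rw [mem_range, Nat.lt_succ_iff, ← ht'.1]
    exact single_le_sum (f := t) (fun _ _ => Nat.zero_le _) i.2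
  · intro t ht t' ht' h
    have h2 := mem_piAntidiag.1 (mem_coe.1 ht)
    have h3 := mem_piAntidiag.1 (mem_coe.1 ht')
    funext i
    by_cases hi : i ∈ S
    · exact congrFun h ⟨i, hi⟩
    · have e1 : t i = 0 := by
        by_contra h4
        exact hi (h2.2 i h4)
      have e2 : t' i = 0 := by
        by_contra h4
        exact hi (h3.2 i h4)
      rw [e1, e2]

/-- Functions with given sum below a function. -/
lemma exists_sum_eq (S : Finset ℕ) (h : ℕ → ℕ) : ∀ m ≤ ∑ i ∈ S, h i,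
    ∃ n : ℕ → ℕ, (∀ i, n i ≤ h i) ∧ (∑ i ∈ S, n i = m) ∧ ∀ i, n i ≠ 0 → i ∈ S := by
  classical
  induction S using Finset.induction_on with
  | empty =>
    intro m hm
    rw [sum_empty] at hm
    exact ⟨fun _ => 0, fun _ => Nat.zero_le _, by rw [sum_empty]; omega, fun i hi => absurd rfl hi⟩
  | insert a s ha ih =>
    intro m hm
    rw [sum_insert ha] at hm
    by_cases hms : m ≤ ∑ i ∈ s, h i
    · obtain ⟨n, h1, h2, h3⟩ := ih m hms
      refine ⟨n, h1, ?_, fun i hi => mem_insert_of_mem (h3 i hi)⟩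
      have h4 : n a = 0 := by
        by_contra h5
        exact ha (h3 a h5)
      rw [sum_insert ha, h4, h2, zero_add]
    · obtain ⟨n, h1, h2, h3⟩ := ih (∑ i ∈ s, h i) le_rfl
      refine ⟨Function.update n a (m - ∑ i ∈ s, h i), fun i => ?_, ?_, fun i hi => ?_⟩
      · by_cases hi : i = a
        · subst hi
          rw [Function.update_self]
          omega
        · rw [Function.update_of_ne hi]
          exact h1 i
      · rw [sum_insert ha, Function.update_self]
        have h4 : ∑ i ∈ s, Function.update n a (m - ∑ i ∈ s, h i) i = ∑ i ∈ s, n i :=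
          sum_congr rfl fun i hi => Function.update_of_ne (fun h5 => ha (by rw [← h5]; exact hi)) _ _
        rw [h4, h2]
        omega
      · by_cases hia : i = a
        · subst hia
          exact mem_insert_self _ _
        · rw [Function.update_of_ne hia] at hi
          exact mem_insert_of_mem (h3 i hi)

/-- Halving a type. -/
lemma exists_half {S : Finset ℕ} {t : ℕ → ℕ} {m r : ℕ} (ht : t ∈ piAntidiag S (2 * (m + r)))
    (hS : S.card ≤ 2 * r + 1) : ∃ n ∈ piAntidiag S m, ∀ i, 2 * n i ≤ t i := by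
  have ht' := mem_piAntidiag.1 ht
  have h1 : m ≤ ∑ i ∈ S, t i / 2 := by
    have h2 : ∑ i ∈ S, t i ≤ ∑ i ∈ S, (2 * (t i / 2) + 1) := sum_le_sum fun i _ => by omega
    rw [sum_add_distrib, ← mul_sum, sum_const, smul_eq_mul, mul_one] at h2
    have h3 := ht'.1
    change ∑ i ∈ S, t i = _ at h3
    omega
  obtain ⟨n, h2, h3, h4⟩ := exists_sum_eq S (fun i => t i / 2) m h1
  refine ⟨n, mem_piAntidiag.2 ⟨h3, h4⟩, fun i => ?_⟩
  have := h2 i
  omega

/-- **The weight of a type and of one half of it.** -/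
lemma wt_le {S : Finset ℕ} {β t n : ℕ → ℕ} {m r b : ℕ} (ht : t ∈ piAntidiag S (2 * (m + r)))
    (hn : n ∈ piAntidiag S m) (h : ∀ i, 2 * n i ≤ t i) (hβ : ∀ i ∈ S, β i ≤ b) :
    wt S β t ≤ (2 * (m + r)) ^ (2 * r) * b ^ (2 * r) * (2 * m + 1) ^ S.card *
      wt S β n ^ 2 := by
  have ht' : ∑ i ∈ S, t i = 2 * (m + r) := (mem_piAntidiag.1 ht).1
  have hn' : ∑ i ∈ S, n i = m := (mem_piAntidiag.1 hn).1
  -- the factorials
  have hmt := multinomial_spec (s := S) (f := t)
  have hmn := multinomial_spec (s := S) (f := n)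
  rw [ht'] at hmt
  rw [hn'] at hmn
  set Pt := ∏ i ∈ S, (t i)! with hPt
  set Pn := ∏ i ∈ S, (n i)! with hPn
  have hPt0 : 0 < Pt := prod_pos fun i _ => Nat.factorial_pos _
  have hPn0 : 0 < Pn := prod_pos fun i _ => Nat.factorial_pos _
  have h1 : (2 * (m + r))! ≤ (2 * (m + r)) ^ (2 * r) * (2 * m)! := by
    have e1 := Nat.factorial_mul_ascFactorial (2 * m) (2 * r)
    have e2 := Nat.ascFactorial_le_pow_add (2 * m) (2 * r)
    rw [show 2 * m + 2 * r = 2 * (m + r) by ring] at e1 e2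
    rw [← e1, mul_comm]
    exact Nat.mul_le_mul_right _ e2
  have h2 : (2 * m)! ≤ 4 ^ m * m ! ^ 2 := by
    have e1 : (2 * m)! = centralBinom m * m ! * m ! := by
      have := Nat.choose_mul_factorial_mul_factorial (n := 2 * m) (k := m) (by omega)
      rw [show 2 * m - m = m by omega] at this
      rw [centralBinom_eq_two_mul_choose]
      exact this.symm
    rw [e1, mul_assoc, ← pow_two]
    exact Nat.mul_le_mul_right _ (centralBinom_le_four_pow m)
  have h3 : 4 ^ m * Pn ^ 2 ≤ (2 * m + 1) ^ S.card * Pt := by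
    have e1 : 4 ^ m * Pn ^ 2 = ∏ i ∈ S, (4 ^ n i * (n i)! ^ 2) := by
      rw [prod_mul_distrib, prod_pow_eq_pow_sum, hn', prod_pow]
    have e2 : (2 * m + 1) ^ S.card * Pt = ∏ i ∈ S, ((2 * m + 1) * (t i)!) := by
      rw [prod_mul_distrib, prod_const]
    rw [e1, e2]
    refine prod_le_prod' fun i hi => ?_
    have hni : n i ≤ m := by
      rw [← hn']
      exact single_le_sum (f := n) (fun _ _ => Nat.zero_le _) hi
    have e3 := Nat.four_pow_le_two_mul_add_one_mul_central_binom (n i)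
    have e4 := Nat.choose_mul_factorial_mul_factorial (n := 2 * n i) (k := n i) (by omega)
    rw [show 2 * n i - n i = n i by omega] at e4
    calc 4 ^ n i * (n i)! ^ 2 ≤ (2 * n i + 1) * (2 * n i).choose (n i) * (n i)! ^ 2 :=
          Nat.mul_le_mul_right _ e3
      _ = (2 * n i + 1) * ((2 * n i).choose (n i) * (n i)! * (n i)!) := by ring
      _ = (2 * n i + 1) * (2 * n i)! := by rw [e4]
      _ ≤ (2 * m + 1) * (t i)! :=
          Nat.mul_le_mul (by omega) (Nat.factorial_le (h i))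
  have h4 : multinomial S t ≤ (2 * (m + r)) ^ (2 * r) * (2 * m + 1) ^ S.card *
      multinomial S n ^ 2 := by
    have hpos : 0 < Pt * Pn ^ 2 := by positivity
    refine Nat.le_of_mul_le_mul_left ?_ hpos
    calc Pt * Pn ^ 2 * multinomial S t = (2 * (m + r))! * Pn ^ 2 := by rw [← hmt]; ring
      _ ≤ (2 * (m + r)) ^ (2 * r) * (4 ^ m * m ! ^ 2) * Pn ^ 2 :=
          Nat.mul_le_mul_right _ (h1.trans (Nat.mul_le_mul_left _ h2))
      _ = (2 * (m + r)) ^ (2 * r) * m ! ^ 2 * (4 ^ m * Pn ^ 2) := by ring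
      _ ≤ (2 * (m + r)) ^ (2 * r) * m ! ^ 2 * ((2 * m + 1) ^ S.card * Pt) :=
          Nat.mul_le_mul_left _ h3
      _ = Pt * Pn ^ 2 * ((2 * (m + r)) ^ (2 * r) * (2 * m + 1) ^ S.card *
          multinomial S n ^ 2) := by rw [← hmn]; ring
  have h5 : ∏ i ∈ S, β i ^ t i ≤ b ^ (2 * r) * (∏ i ∈ S, β i ^ n i) ^ 2 := by
    have e1 : ∏ i ∈ S, β i ^ t i =
        (∏ i ∈ S, β i ^ (t i - 2 * n i)) * (∏ i ∈ S, β i ^ n i) ^ 2 := by
      rw [← prod_pow, ← prod_mul_distrib]
      refine prod_congr rfl fun i _ => ?_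
      rw [← pow_mul, ← pow_add]
      congr 1
      have := h i
      omega
    rw [e1]
    refine Nat.mul_le_mul_right _ ?_
    have e2 : ∑ i ∈ S, (t i - 2 * n i) = 2 * r := by
      have e3 : ∑ i ∈ S, (t i - 2 * n i) + ∑ i ∈ S, 2 * n i = ∑ i ∈ S, t i := by
        rw [← sum_add_distrib]
        exact sum_congr rfl fun i _ => Nat.sub_add_cancel (h i)
      rw [← mul_sum, hn', ht'] at e3
      omega
    rw [← e2, ← prod_pow_eq_pow_sum]
    exact prod_le_prod' fun i hi => Nat.pow_le_pow_left (hβ i hi) _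
  calc wt S β t ≤ ((2 * (m + r)) ^ (2 * r) * (2 * m + 1) ^ S.card * multinomial S n ^ 2) *
        (b ^ (2 * r) * (∏ i ∈ S, β i ^ n i) ^ 2) := Nat.mul_le_mul h4 h5
    _ = _ := by rw [wt]; ring

/-- **Approximate logarithmic concavity of the coefficients of powers.** -/
theorem coeff_pow_mul_le (d u m : ℕ) (β : ℕ → ℕ) (Q : ℕ[X]) (hQ : Q.natDegree ≤ 2 * u)
    (b c K : ℕ) (hβ : ∀ i, β i ≤ b)
    (hK : ∀ e ≤ c, c - e ≤ 2 * d * d + u →
      (((pol (range (2 * d + 1)) β) ^ m).coeff e) ^ 2 ≤ K) :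
    (((pol (range (2 * d + 1)) β) ^ (2 * (m + d))) * Q).coeff (2 * c) ≤
      Q.eval 1 * ((2 * (m + d) + 1) ^ (2 * d + 1) * ((2 * (m + d)) ^ (2 * d) * b ^ (2 * d) *
        (2 * m + 1) ^ (2 * d + 1) * K)) := by
  set S := range (2 * d + 1) with hS
  have hcard : S.card = 2 * d + 1 := card_range _
  set L := (2 * (m + d)) ^ (2 * d) * b ^ (2 * d) * (2 * m + 1) ^ (2 * d + 1) * K with hL
  have key : ∀ x ∈ HasAntidiagonal.antidiagonal (2 * c), ((pol S β) ^ (2 * (m + d))).coeff x.1 *
      Q.coeff x.2 ≤ ((2 * (m + d) + 1) ^ (2 * d + 1) * L) * Q.coeff x.2 := by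
    intro x hx
    have hx' : x.1 + x.2 = 2 * c := HasAntidiagonal.mem_antidiagonal.1 hx
    by_cases hQ0 : Q.coeff x.2 = 0
    · rw [hQ0, mul_zero, mul_zero]
    refine Nat.mul_le_mul_right _ ?_
    have hx2 : x.2 ≤ 2 * u := (le_natDegree_of_ne_zero hQ0).trans hQ
    rw [coeff_pol_pow]
    have h1 : ∀ t ∈ (piAntidiag S (2 * (m + d))).filter (fun t => dg S t = x.1),
        wt S β t ≤ L := by
      intro t ht
      obtain ⟨ht1, ht2⟩ := mem_filter.1 ht
      obtain ⟨n, hn, hnt⟩ := exists_half ht1 (by rw [hcard])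
      have h2 := wt_le ht1 hn hnt (fun i _ => hβ i) (b := b)
      rw [hcard] at h2
      refine h2.trans (Nat.mul_le_mul_left _ ?_)
      refine (Nat.pow_le_pow_left (wt_le_coeff hn) 2).trans ?_
      have h3 : dg S t = 2 * dg S n + ∑ i ∈ S, i * (t i - 2 * n i) := by
        rw [dg, dg, mul_sum, ← sum_add_distrib]
        refine sum_congr rfl fun i _ => ?_
        have h4 := hnt i
        obtain ⟨l, hl⟩ := Nat.exists_eq_add_of_le h4
        rw [hl, Nat.add_sub_cancel_left]
        ring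
      have h4 : ∑ i ∈ S, i * (t i - 2 * n i) ≤ 2 * d * (2 * d) := by
        have e2 : ∑ i ∈ S, (t i - 2 * n i) = 2 * d := by
          have e3 : ∑ i ∈ S, (t i - 2 * n i) + ∑ i ∈ S, 2 * n i = ∑ i ∈ S, t i := by
            rw [← sum_add_distrib]
            exact sum_congr rfl fun i _ => Nat.sub_add_cancel (hnt i)
          rw [← mul_sum] at e3
          have e4 : ∑ i ∈ S, n i = m := (mem_piAntidiag.1 hn).1
          have e5 : ∑ i ∈ S, t i = 2 * (m + d) := (mem_piAntidiag.1 ht1).1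
          omega
        calc ∑ i ∈ S, i * (t i - 2 * n i) ≤ ∑ i ∈ S, 2 * d * (t i - 2 * n i) :=
              sum_le_sum fun i hi => Nat.mul_le_mul_right _ (by
                have := mem_range.1 hi
                omega)
          _ = _ := by rw [← mul_sum, e2]
      have h5 : 2 * d * (2 * d) = 2 * (2 * d * d) := by ring
      exact hK _ (by omega) (by omega)
    calc ∑ t ∈ (piAntidiag S (2 * (m + d))).filter (fun t => dg S t = x.1), wt S β t
        ≤ ∑ t ∈ (piAntidiag S (2 * (m + d))).filter (fun t => dg S t = x.1), L := sum_le_sum h1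
      _ = ((piAntidiag S (2 * (m + d))).filter (fun t => dg S t = x.1)).card * L := by
          rw [sum_const, smul_eq_mul]
      _ ≤ (2 * (m + d) + 1) ^ (2 * d + 1) * L := by
          refine Nat.mul_le_mul_right _ ((card_filter_le _ _).trans ?_)
          rw [← hcard]
          exact card_piAntidiag_le _ _
  rw [coeff_mul]
  refine (sum_le_sum key).trans ?_
  rw [← mul_sum, mul_comm]
  refine Nat.mul_le_mul_right _ ?_
  rw [eval_eq_sum_range' (n := 2 * u + 1) (by omega), Finset.Nat.sum_antidiagonal_eq_sum_range_succ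
    (fun _ j => Q.coeff j)]
  simp only [one_pow, mul_one]
  have h6 : ∑ x ∈ range (2 * c).succ, Q.coeff (2 * c - x) = ∑ x ∈ range (2 * c + 1), Q.coeff x := by
    rw [← sum_range_reflect]
    refine sum_congr rfl fun x hx => ?_
    have := mem_range.1 hx
    congr 1
    omega
  rw [h6]
  by_cases hcu : 2 * c + 1 ≤ 2 * u + 1
  · exact sum_le_sum_of_subset (range_subset_range.2 hcu)
  · rw [← sum_subset (range_subset_range.2 (show 2 * u + 1 ≤ 2 * c + 1 by omega))]
    intro x _ hx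
    apply coeff_eq_zero_of_natDegree_lt
    rw [mem_range] at hx
    omega

end Pool.Agent.L7h85.AC
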