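import Pool.Agent.Y163.Defs

/-!
# Varieties with algebraic duality: definitions
-/

set_option autoImplicit false

open CategoryTheory AlgebraicGeometry

universe u v

namespace Pool.Agent.L7h85.AC

open Pool.Agent.H914 Pool.Agent.H914.VarClass Pool.Agent.H914.VarClass.Obj
  Pool.Agent.H914.WeilCohomology

variable {k : Type u} [Field k] {𝒱 : VarClass k} {ops : CycleOps 𝒱}

/-- The Betti number in degree `i`. -/
noncomputable def betti (W : WeilCohomology.{u, v} ops) (X : 𝒱.Obj) (i : ℕ) : ℕ :=
  Module.finrank W.K (W.gr X i)

/-- The total Betti number. -/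
noncomputable def totalBetti (W : WeilCohomology.{u, v} ops) (X : 𝒱.Obj) : ℕ :=
  Module.finrank W.K (W.H X)

/-- The operator on `H(X)` given by the cycle `z` on `X × X`. -/
noncomputable def corrOf (W : WeilCohomology.{u, v} ops) (X : 𝒱.Obj) (z : (X.prod X).Cycles)
    (a : W.H X) : W.H X :=
  W.corr (W.cl _ z) a

/-- The Lefschetz standard conjecture holds for `X` (it is known for curves, surfaces, abelian
varieties, complete intersections in flag varieties, and products of such varieties): for all
`i ≤ 2 dim X` there are algebraic cycles `z`, `w` on `X × X`, of the codimensions `2 dim X - i` and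
`i`, such that the correspondence `H^i(X) → H^(2 dim X - i)(X)` given by `z` is inverted by the
correspondence `H^(2 dim X - i)(X) → H^i(X)` given by `w`. -/
def AlgebraicDuality (W : WeilCohomology.{u, v} ops) (X : 𝒱.Obj) : Prop :=
  ∀ i ≤ 2 * X.dim, ∃ z w : (X.prod X).Cycles, (X.prod X).IsCyc (2 * X.dim - i) z ∧
    (X.prod X).IsCyc i w ∧ ∀ a ∈ W.gr X i, corrOf W X w (corrOf W X z a) = a

/-- The formula of Tate for the variety `Z` and the codimension `c`, up to the factor `N`: the rank
`r` of the group of cycles of codimension `c` modulo numerical equivalence is positive, and the order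
`z` of the pole at `c` of the zeta function of `Z` over all sufficiently large finite fields and the
Betti number in degree `2 c` satisfy `r ≤ z ≤ b_{2c} ≤ N r`. -/
def TateUpTo {W : WeilCohomology.{u, v} ops} {p : ℕ} (Φ : W534.FrobSystem W p) (σ : W.K →+* ℂ)
    (Z : 𝒱.Obj) (c N : ℕ) : Prop :=
  ∃ z r : ℕ, Y163.PoleOrderIs Φ σ Z c z ∧ r = W534.numRank ops Z c ∧ 0 < r ∧ r ≤ z ∧
    z ≤ betti W Z (2 * c) ∧ betti W Z (2 * c) ≤ N * r

end Pool.Agent.L7h85.AC
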