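import Pool.Agent.Y163.Pow
import Pool.Agent.L7h85.AC.Comb
import Pool.Agent.L7h85.AC.Defs

/-!
# Betti numbers of products
-/

set_option autoImplicit false

open CategoryTheory AlgebraicGeometry Finset TensorProduct Polynomial

universe u v

namespace Pool.Agent.L7h85.AC

open Pool.Agent.H914 Pool.Agent.W534 Pool.Agent.Y163 VarClass Obj WeilCohomology

variable {k : Type u} [Field k] {𝒱 : VarClass k} {ops : CycleOps 𝒱}
  (W : WeilCohomology.{u, v} ops)

/-- The Künneth isomorphism. -/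
noncomputable def kEq (X Y : 𝒱.Obj) : (W.H X ⊗[W.K] W.H Y) ≃ₗ[W.K] W.H (X.prod Y) :=
  LinearEquiv.ofBijective (kunnethMap (W.map (Obj.fst X Y)) (W.map (Obj.snd X Y)))
    (W.kunneth X Y)

lemma kEq_tmul (X Y : 𝒱.Obj) (a : W.H X) (b : W.H Y) :
    kEq W X Y (a ⊗ₜ b) = W.map (Obj.fst X Y) a * W.map (Obj.snd X Y) b := by
  rw [kEq, LinearEquiv.ofBijective_apply, kunnethMap]
  rfl

lemma proj_kEq (X Y : 𝒱.Obj) (e : ℕ) :
    proj (W.isInternal (X.prod Y)) e ∘ₗ (kEq W X Y).toLinearMap =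
      (kEq W X Y).toLinearMap ∘ₗ ∑ x ∈ HasAntidiagonal.antidiagonal e,
        TensorProduct.map (proj (W.isInternal X) x.1) (proj (W.isInternal Y) x.2) := by
  apply TensorProduct.ext
  apply gr_ext (W.isInternal X)
  intro i a ha
  apply gr_ext (W.isInternal Y)
  intro j b hb
  change proj (W.isInternal (X.prod Y)) e (kEq W X Y (a ⊗ₜ b)) = kEq W X Y
    ((∑ x ∈ HasAntidiagonal.antidiagonal e,
        TensorProduct.map (proj (W.isInternal X) x.1) (proj (W.isInternal Y) x.2)) (a ⊗ₜ b))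
  rw [kEq_tmul, LinearMap.sum_apply]
  have h1 : W.map (Obj.fst X Y) a * W.map (Obj.snd X Y) b ∈ W.gr (X.prod Y) (i + j) :=
    W.mul_mem (W.map_mem _ ha) (W.map_mem _ hb)
  by_cases he : i + j = e
  · rw [← he, proj_same _ h1, sum_eq_single (i, j)]
    · rw [TensorProduct.map_tmul, proj_same _ ha, proj_same _ hb, kEq_tmul]
    · intro x hx hne
      rw [TensorProduct.map_tmul]
      by_cases hi : i = x.1
      · have hj : j ≠ x.2 := by
          intro hj
          exact hne (Prod.ext hi.symm hj.symm)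
        rw [proj_ne _ hb hj, tmul_zero]
      · rw [proj_ne _ ha hi, zero_tmul]
    · intro h
      exact absurd (HasAntidiagonal.mem_antidiagonal.2 (show (i, j).1 + (i, j).2 = i + j from rfl)) h
  · rw [proj_ne _ h1 he, sum_eq_zero, map_zero]
    intro x hx
    have hx' := HasAntidiagonal.mem_antidiagonal.1 hx
    rw [TensorProduct.map_tmul]
    by_cases hi : i = x.1
    · have hj : j ≠ x.2 := by
        intro hj
        apply he
        rw [hi, hj, hx']
      rw [proj_ne _ hb hj, tmul_zero]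
    · rw [proj_ne _ ha hi, zero_tmul]

/-- **The Betti numbers of a product.** -/
lemma betti_prod (X Y : 𝒱.Obj) (e : ℕ) :
    betti W (X.prod Y) e = ∑ x ∈ HasAntidiagonal.antidiagonal e, betti W X x.1 * betti W Y x.2 := by
  have h1 : proj (W.isInternal (X.prod Y)) e = (kEq W X Y).conj
      (∑ x ∈ HasAntidiagonal.antidiagonal e,
        TensorProduct.map (proj (W.isInternal X) x.1) (proj (W.isInternal Y) x.2)) := by
    apply LinearMap.ext
    intro a
    rw [LinearEquiv.conj_apply, LinearMap.comp_assoc, ← LinearMap.comp_assoc, ← proj_kEq,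
      LinearMap.comp_assoc]
    simp
  have h2 : ((betti W (X.prod Y) e : ℕ) : W.K) =
      ((∑ x ∈ HasAntidiagonal.antidiagonal e, betti W X x.1 * betti W Y x.2 : ℕ) : W.K) := by
    rw [betti, ← trace_proj (W.isInternal (X.prod Y)) e, h1, LinearMap.trace_conj', map_sum]
    push_cast
    refine sum_congr rfl fun x _ => ?_
    rw [LinearMap.trace_tensorProduct', trace_proj, trace_proj]
    rfl
  exact_mod_cast h2

lemma betti_eq_zero (X : 𝒱.Obj) {i : ℕ} (hi : 2 * X.dim < i) : betti W X i = 0 := by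
  rw [betti, W.gr_eq_bot X i hi, finrank_bot]

/-- The Poincaré polynomial. -/
noncomputable def pp (X : 𝒱.Obj) : ℕ[X] := pol (range (2 * X.dim + 1)) (betti W X)

lemma coeff_pp (X : 𝒱.Obj) (e : ℕ) : (pp W X).coeff e = betti W X e := by
  rw [pp, pol, finsetSum_coeff]
  simp only [coeff_C_mul, coeff_X_pow, mul_ite, mul_one, mul_zero]
  by_cases he : e ∈ range (2 * X.dim + 1)
  · rw [sum_ite_eq, if_pos he]
  · rw [sum_ite_eq, if_neg he, betti_eq_zero]
    rw [mem_range] at he
    omega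

lemma pp_prod (X Y : 𝒱.Obj) : pp W (X.prod Y) = pp W X * pp W Y := by
  ext e
  rw [coeff_pp, betti_prod, coeff_mul]
  refine sum_congr rfl fun x _ => ?_
  rw [coeff_pp, coeff_pp]

lemma pp_pw (X : 𝒱.Obj) (n : ℕ) : pp W (pw X n) = pp W X ^ (n + 1) := by
  induction n with
  | zero => rw [zero_add, pow_one]; rfl
  | succ n ih =>
    rw [pw, pp_prod, ih, pow_succ' _ (n + 1)]

lemma pp_sq (X : 𝒱.Obj) (n : ℕ) : pp W (Y163.sq X n) = pp W X ^ (2 * (n + 1)) := by
  rw [Y163.sq, pp_prod, pp_pw, ← pow_add]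
  congr 1
  omega

lemma eval_pp (X : 𝒱.Obj) : (pp W X).eval 1 = Module.finrank W.K (W.H X) := by
  rw [finrank_eq_sum (W.isInternal X) (N := 2 * X.dim + 1)
    (fun i hi => W.gr_eq_bot X i (by omega)), pp, pol, eval_finsetSum]
  refine sum_congr rfl fun i _ => ?_
  simp [betti]

lemma betti_le (X : 𝒱.Obj) (i : ℕ) : betti W X i ≤ Module.finrank W.K (W.H X) :=
  Submodule.finrank_le _

lemma natDegree_pp (X : 𝒱.Obj) : (pp W X).natDegree ≤ 2 * X.dim := by
  rw [natDegree_le_iff_coeff_eq_zero]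
  intro i hi
  rw [coeff_pp, betti_eq_zero W X hi]

end Pool.Agent.L7h85.AC
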