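import Pool.Agent.L7h85.AC.Kun
import Pool.Agent.L7h85.AC.Defs

/-!
# The duality of products
-/

set_option autoImplicit false

open CategoryTheory AlgebraicGeometry CategoryTheory.Limits

universe u v

namespace Pool.Agent.L7h85.AC

open Pool.Agent.H914 Pool.Agent.H447 Pool.Agent.W534 Pool.Agent.Y163 VarClass Obj WeilCohomology
  Module

variable {k : Type u} [Field k] {𝒱 : VarClass k} {ops : CycleOps 𝒱}
  {W : WeilCohomology.{u, v} ops} {S U X Y Z : 𝒱.Obj} {p : ℕ}

/-- The duality is given by algebraic correspondences. -/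
def Dual (W : WeilCohomology.{u, v} ops) (Z : 𝒱.Obj) : Prop :=
  ∀ e : ℕ, ∃ F ∈ KOp W Z Z (Z.dim - e), ∃ G ∈ KOp W Z Z (e - Z.dim), ∀ a ∈ W.gr Z e, G (F a) = a

lemma AlgebraicDuality.dual (h : AlgebraicDuality W X) : Dual W X := by
  intro e
  by_cases he : e ≤ 2 * X.dim
  · obtain ⟨z, w, hz, hw, h1⟩ := h e he
    exact ⟨_, KOp.gen (by push_cast [he]; ring) hz, _, KOp.gen (by push_cast; ring) hw, h1⟩
  · refine ⟨0, Submodule.zero_mem _, 0, Submodule.zero_mem _, fun a ha => ?_⟩
    rw [W.gr_eq_bot X e (by omega)] at ha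
    rw [(Submodule.mem_bot _).1 ha]
    simp

lemma gr_of_kop {d : ℤ} {φ : W.H X →ₗ[W.K] W.H Y} (hφ : φ ∈ KOp W X Y d) {i j : ℕ}
    (hij : (j : ℤ) = i + 2 * d) {a : W.H X} (ha : a ∈ W.gr X i) : φ a ∈ W.gr Y j := by
  have h1 := KOp.isHom hφ i a (by rw [grZ_natCast]; exact ha)
  rwa [← hij, grZ_natCast] at h1

/-- The duality of a product. -/
theorem Dual.prod (hY : Dual W Y) (hZ : Dual W Z)
    (pY : ∀ i, proj (W.isInternal Y) i ∈ KOp W Y Y 0)
    (pZ : ∀ i, proj (W.isInternal Z) i ∈ KOp W Z Z 0) : Dual W (Y.prod Z) := by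
  choose FY hFY GY hGY hY using hY
  choose FZ hFZ GZ hGZ hZ using hZ
  intro e
  set A := (Finset.HasAntidiagonal.antidiagonal e).filter fun x => x.1 ≤ 2 * Y.dim ∧ x.2 ≤ 2 * Z.dim with hA
  set F : Module.End W.K (W.H (Y.prod Z)) := ∑ x ∈ A, extOp W
    (FY x.1 ∘ₗ proj (W.isInternal Y) x.1) (FZ x.2 ∘ₗ proj (W.isInternal Z) x.2) with hF
  set G : Module.End W.K (W.H (Y.prod Z)) := ∑ x ∈ A, extOp W
    (GY x.1 ∘ₗ proj (W.isInternal Y) (2 * Y.dim - x.1))
    (GZ x.2 ∘ₗ proj (W.isInternal Z) (2 * Z.dim - x.2)) with hG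
  have hFm : F ∈ KOp W (Y.prod Z) (Y.prod Z) ((Y.prod Z).dim - e) := by
    refine Submodule.sum_mem _ fun x hx => ?_
    have hx' : x.1 + x.2 = e := Finset.HasAntidiagonal.mem_antidiagonal.1 (Finset.mem_filter.1 hx).1
    refine KOp.cast (KOp.ext (KOp.cast (KOp.comp (hFY x.1) (pY x.1)) (zero_add _))
      (KOp.cast (KOp.comp (hFZ x.2) (pZ x.2)) (zero_add _))) ?_
    rw [dim_prod, ← hx']
    push_cast
    ring
  have hGm : G ∈ KOp W (Y.prod Z) (Y.prod Z) (e - (Y.prod Z).dim) := by
    refine Submodule.sum_mem _ fun x hx => ?_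
    have hx' : x.1 + x.2 = e := Finset.HasAntidiagonal.mem_antidiagonal.1 (Finset.mem_filter.1 hx).1
    refine KOp.cast (KOp.ext (KOp.cast (KOp.comp (hGY x.1) (pY _)) (zero_add _))
      (KOp.cast (KOp.comp (hGZ x.2) (pZ _)) (zero_add _))) ?_
    rw [dim_prod, ← hx']
    push_cast
    ring
  refine ⟨F, hFm, G, hGm, fun c hc => ?_⟩
  have key : ∀ c, G (F c) = proj (W.isInternal (Y.prod Z)) e c := by
    intro c
    refine W.kunneth_induction (p := fun c => G (F c) = proj (W.isInternal (Y.prod Z)) e c)
      ?_ ?_ c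
    · intro a b ha hb
      rw [map_add, map_add, map_add, ha, hb]
    · intro i j a ha b hb
      have hab : W.map (fst Y Z) a * W.map (snd Y Z) b ∈ W.gr (Y.prod Z) (i + j) :=
        W.mul_mem (W.map_mem _ ha) (W.map_mem _ hb)
      by_cases hi : i ≤ 2 * Y.dim
      · by_cases hj : j ≤ 2 * Z.dim
        · have e1 : F (W.map (fst Y Z) a * W.map (snd Y Z) b) = if i + j = e then
              W.map (fst Y Z) (FY i a) * W.map (snd Y Z) (FZ j b) else 0 := by
            rw [hF, LinearMap.sum_apply]
            by_cases hij : i + j = e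
            · rw [if_pos hij, Finset.sum_eq_single (i, j)]
              · rw [extOp_tmul, LinearMap.comp_apply, LinearMap.comp_apply,
                  proj_same _ ha, proj_same _ hb]
              · intro x hx hne
                rw [extOp_tmul, LinearMap.comp_apply, LinearMap.comp_apply]
                have hx' : x.1 + x.2 = e := Finset.HasAntidiagonal.mem_antidiagonal.1 (Finset.mem_filter.1 hx).1
                have h1 : i ≠ x.1 := by
                  intro h
                  apply hne
                  exact Prod.ext h.symm (by omega)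
                rw [proj_ne _ ha h1]
                simp
              · intro h
                exact absurd (Finset.mem_filter.2 ⟨Finset.HasAntidiagonal.mem_antidiagonal.2 hij, hi, hj⟩) h
            · rw [if_neg hij]
              refine Finset.sum_eq_zero fun x hx => ?_
              have hx' : x.1 + x.2 = e := Finset.HasAntidiagonal.mem_antidiagonal.1 (Finset.mem_filter.1 hx).1
              rw [extOp_tmul, LinearMap.comp_apply, LinearMap.comp_apply]
              by_cases h1 : i = x.1
              · rw [proj_ne _ hb (show j ≠ x.2 by omega)]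
                simp
              · rw [proj_ne _ ha h1]
                simp
          by_cases hij : i + j = e
          · rw [e1, if_pos hij, hG, LinearMap.sum_apply]
            have ha' : FY i a ∈ W.gr Y (2 * Y.dim - i) :=
              gr_of_kop (hFY i) (by push_cast [hi]; ring) ha
            have hb' : FZ j b ∈ W.gr Z (2 * Z.dim - j) :=
              gr_of_kop (hFZ j) (by push_cast [hj]; ring) hb
            rw [Finset.sum_eq_single (i, j)]
            · rw [extOp_tmul, LinearMap.comp_apply, LinearMap.comp_apply, proj_same _ ha',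
                proj_same _ hb', hY i a ha, hZ j b hb, proj_same _ (by rw [← hij]; exact hab)]
            · intro x hx hne
              rw [extOp_tmul, LinearMap.comp_apply, LinearMap.comp_apply]
              have hx' : x.1 + x.2 = e := Finset.HasAntidiagonal.mem_antidiagonal.1 (Finset.mem_filter.1 hx).1
              have hx2 := (Finset.mem_filter.1 hx).2
              have h1 : 2 * Y.dim - i ≠ 2 * Y.dim - x.1 := by
                intro h
                apply hne
                exact Prod.ext (by omega) (by omega)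
              rw [proj_ne _ ha' h1]
              simp
            · intro h
              exact absurd (Finset.mem_filter.2 ⟨Finset.HasAntidiagonal.mem_antidiagonal.2 hij, hi, hj⟩) h
          · rw [e1, if_neg hij, map_zero, proj_ne _ hab hij]
        · rw [W.gr_eq_bot Z j (by omega)] at hb
          rw [(Submodule.mem_bot _).1 hb]
          simp
      · rw [W.gr_eq_bot Y i (by omega)] at ha
        rw [(Submodule.mem_bot _).1 ha]
        simp
  rw [key, proj_same _ hc]

/-- The duality of the powers. -/
theorem Dual.pw [IsAlgClosed W.K] (hp : 1 < p) (Φ : FrobSystem W p) (σ : W.K →+* ℂ)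
    (hRH : ∀ Z : 𝒱.Obj, RiemannHyp Φ σ Z) (hX : Dual W X) : ∀ n, Dual W (Y163.pw X n)
  | 0 => hX
  | n + 1 => hX.prod (Dual.pw hp Φ σ hRH hX n) (fun i => proj_mem_of_RH Φ hp σ (hRH _) i)
      (fun i => proj_mem_of_RH Φ hp σ (hRH _) i)

end Pool.Agent.L7h85.AC
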