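import Pool.Agent.L7h85.AC.Grow
import Pool.Agent.L7h85.AC.Betti
import Pool.Agent.R934.Poly

/-!
# The formula of Tate up to a polynomial factor in all codimensions
-/

set_option autoImplicit false

open CategoryTheory AlgebraicGeometry

universe u v

namespace Pool.Agent.L7h85.AC

open Pool.Agent.H914 Pool.Agent.W534 Pool.Agent.Y163 VarClass Obj WeilCohomology Module

variable {k : Type u} [Field k] {𝒱 : VarClass k} {ops : CycleOps 𝒱}
  {W : WeilCohomology.{u, v} ops} {X U V : 𝒱.Obj} {p : ℕ}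

/-- The product of the squares of two powers. -/
noncomputable def sqIso (X : 𝒱.Obj) (a b : ℕ) :
    Y163.sq X (a + 1 + b) ≅ (Y163.sq X a).prod (Y163.sq X b) :=
  pwIso X (a + 1 + b) (a + 1 + b) ≪≫
    eqToIso (by rw [show a + 1 + b + 1 + (a + 1 + b) = a + 1 + a + 1 + (b + 1 + b) by ring]) ≪≫
    (pwIso X (a + 1 + a) (b + 1 + b)).symm ≪≫ prodIso (pwIso X a a).symm (pwIso X b b).symm

/-- Splitting off a fixed number of factors. -/
lemma exists_split {D : X.Cycles} (hD : X.IsCyc 1 D) (h : W.tr X (W.cl X D ^ X.dim) ≠ 0)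
    {E : U.Cycles} (hE : U.IsCyc 1 E) (hE2 : W.tr U (W.cl U E ^ U.dim) ≠ 0) (m : ℕ) :
    ∃ (V : 𝒱.Obj) (G : V.Cycles), V.dim = 2 * X.dim * X.dim + U.dim ∧ V.IsCyc 1 G ∧
      W.tr V (W.cl V G ^ V.dim) ≠ 0 ∧
      Nonempty ((Y163.sq X (m + X.dim)).prod U ≅ (Y163.sq X m).prod V) := by
  rcases Nat.eq_zero_or_pos X.dim with h0 | hpos
  · refine ⟨U, E, by rw [h0]; ring, hE, hE2, ⟨eqToIso (by rw [h0, add_zero])⟩⟩
  · obtain ⟨r, hr⟩ : ∃ r, X.dim = r + 1 := ⟨X.dim - 1, by omega⟩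
    obtain ⟨F, hF, hF2⟩ := exists_big hD h r
    obtain ⟨F', hF', hF2'⟩ := exists_big_prod hF hF2 hF hF2
    obtain ⟨G, hG, hG2⟩ := exists_big_prod hF' hF2' hE hE2
    refine ⟨(Y163.sq X r).prod U, G, ?_, hG, hG2, ⟨?_⟩⟩
    · rw [dim_prod, dim_sq, ← hr]
      ring
    · exact prodIso (eqToIso (by rw [hr, show m + (r + 1) = m + 1 + r by ring]) ≪≫ sqIso X m r)
        (Iso.refl U) ≪≫ assocIso _ _ _

/-- Positivity of the ranks. -/
lemma kRank_pos {G : V.Cycles} (hG : V.IsCyc 1 G) (hG2 : W.tr V (W.cl V G ^ V.dim) ≠ 0)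
    {j l : ℕ} (hjl : j + l = V.dim) : 0 < kRank W V j l := by
  rw [kRank]
  set x : spanCycles W V (j : ℤ) := ⟨_, R934.pow_span_mem hG j⟩ with hx
  set y : spanCycles W V (l : ℤ) := ⟨_, R934.pow_span_mem hG l⟩ with hy
  have h1 : pair W V j l x ≠ 0 := by
    intro h0
    have h2 : pair W V j l x y = 0 := by rw [h0, LinearMap.zero_apply]
    rw [pair_apply, hx, hy] at h2
    change W.tr V (W.cl V G ^ j * W.cl V G ^ l) = 0 at h2
    rw [← pow_add, hjl] at h2
    exact hG2 h2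
  have : Nontrivial (LinearMap.range (pair W V j l)) :=
    ⟨⟨⟨pair W V j l x, ⟨x, rfl⟩⟩, 0, fun h => h1 (congrArg Subtype.val h)⟩⟩
  exact Module.finrank_pos (R := W.K) (M := LinearMap.range (pair W V j l))

/-- **The ranks of the cycles in all codimensions.** -/
theorem betti_le_numRank [IsAlgClosed W.K] (hp : 1 < p) (Φ : FrobSystem W p) (σ : W.K →+* ℂ)
    (hRH : ∀ Z : 𝒱.Obj, RiemannHyp Φ σ Z) (hX : AlgebraicDuality W X)
    {D : X.Cycles} (hD : X.IsCyc 1 D) (hbig : Big ops X D)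
    {E : U.Cycles} (hE : U.IsCyc 1 E) (hbigE : Big ops U E) (n : ℕ) {c : ℕ}
    (hc : c ≤ ((Y163.sq X n).prod U).dim) :
    betti W ((Y163.sq X n).prod U) (2 * c) ≤
      finrank W.K (W.H U) * finrank W.K (W.H X) ^ (2 * X.dim) *
        (2 * (n + 2)) ^ (6 * X.dim + 2) * (n + 2) ^ (finrank W.K (W.H X) ^ 2) *
        numRank ops ((Y163.sq X n).prod U) c := by
  have htr : W.tr X (W.cl X D ^ X.dim) ≠ 0 := hbig.tr hD
  have htrE : W.tr U (W.cl U E ^ U.dim) ≠ 0 := hbigE.tr hE
  have hH : 0 < finrank W.K (W.H X) := R934.finrank_pos_of_big hD hbig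
  set b := finrank W.K (W.H X) with hb
  have hnum : numRank ops ((Y163.sq X n).prod U) c =
      kRank W ((Y163.sq X n).prod U) c (((Y163.sq X n).prod U).dim - c) :=
    numRank_eq (W := W) hc
  by_cases hn : n < X.dim
  · -- few factors
    have hpos : 0 < numRank ops ((Y163.sq X n).prod U) c := by
      obtain ⟨F, hF, hF2⟩ := exists_big hD htr n
      obtain ⟨F', hF', hF2'⟩ := exists_big_prod hF hF2 hF hF2
      obtain ⟨G, hG, hG2⟩ := exists_big_prod hF' hF2' hE htrE
      rw [hnum]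
      exact kRank_pos (V := (Y163.sq X n).prod U) hG hG2 (by omega)
    have h1 : betti W ((Y163.sq X n).prod U) (2 * c) ≤ finrank W.K (W.H U) * b ^ (2 * X.dim) := by
      refine (betti_le W _ _).trans ?_
      rw [R934.finrank_prod_obj, Y163.sq, R934.finrank_prod_obj, finrank_pw, ← pow_add, mul_comm]
      exact Nat.mul_le_mul_left _ (Nat.pow_le_pow_right hH (by omega))
    calc betti W ((Y163.sq X n).prod U) (2 * c) ≤ finrank W.K (W.H U) * b ^ (2 * X.dim) := h1
      _ = finrank W.K (W.H U) * b ^ (2 * X.dim) * 1 * 1 * 1 := by ring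
      _ ≤ _ := Nat.mul_le_mul (Nat.mul_le_mul (Nat.mul_le_mul_left _ (Nat.one_le_pow _ _
          (by omega))) (Nat.one_le_pow _ _ (by omega))) hpos
  · obtain ⟨m, rfl⟩ : ∃ m, n = m + X.dim := ⟨n - X.dim, by omega⟩
    obtain ⟨V, G, hV, hG, hG2, ⟨e⟩⟩ := exists_split (W := W) hD htr hE htrE m
    have hdimeq : ((Y163.sq X m).prod V).dim = ((Y163.sq X (m + X.dim)).prod U).dim := by
      rw [dim_prod, dim_prod, dim_sq, dim_sq, hV]
      ring
    -- the ranks of the factors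
    have hK : ∀ i ≤ c, c - i ≤ 2 * X.dim * X.dim + U.dim →
        ((pol (Finset.range (2 * X.dim + 1)) (betti W X) ^ (m + 1)).coeff i) ^ 2 ≤
          numRank ops ((Y163.sq X (m + X.dim)).prod U) c * (m + 2) ^ (b ^ 2) := by
      intro i hi hci
      have h1 : (pol (Finset.range (2 * X.dim + 1)) (betti W X) ^ (m + 1)).coeff i =
          betti W (Y163.pw X m) i := by
        rw [← coeff_pp, pp_pw]
        rfl
      rw [h1]
      by_cases hid : i ≤ (Y163.sq X m).dim
      · have h2 := sq_le_numRank hp Φ σ hRH hX.dual m hid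
        refine h2.trans (Nat.mul_le_mul_right _ ?_)
        rw [numRank_eq (W := W) hid, hnum, kRank_iso e hdimeq]
        have h3 := R934.kRank_prod_ge (S := Y163.sq X m) hG hG2 i ((Y163.sq X m).dim - i)
          (j := c - i) (l := V.dim - (c - i)) (by omega)
        refine h3.trans (le_of_eq ?_)
        have e1 : i + (c - i) = c := by omega
        have e2 : (Y163.sq X m).dim - i + (V.dim - (c - i)) =
            ((Y163.sq X (m + X.dim)).prod U).dim - c := by
          rw [← hdimeq, dim_prod]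
          omega
        rw [e1, e2]
      · rw [betti_eq_zero W]
        · simp
        · have := dim_sq X m
          rw [dim_pw]
          omega
    have h1 := coeff_pow_mul_le X.dim U.dim (m + 1) (betti W X) (pp W U) (natDegree_pp W U) b c _
      (betti_le W X) hK
    have h2 : betti W ((Y163.sq X (m + X.dim)).prod U) (2 * c) =
        (pol (Finset.range (2 * X.dim + 1)) (betti W X) ^ (2 * (m + 1 + X.dim)) *
          pp W U).coeff (2 * c) := by
      rw [← coeff_pp, pp_prod, pp_sq, show m + X.dim + 1 = m + 1 + X.dim by ring]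
      rfl
    rw [h2]
    refine h1.trans ?_
    rw [eval_pp]
    set R := numRank ops ((Y163.sq X (m + X.dim)).prod U) c
    have i1 : (2 * (m + 1 + X.dim) + 1) ^ (2 * X.dim + 1) ≤
        (2 * (m + X.dim + 2)) ^ (2 * X.dim + 1) := Nat.pow_le_pow_left (by omega) _
    have i2 : (2 * (m + 1 + X.dim)) ^ (2 * X.dim) ≤
        (2 * (m + X.dim + 2)) ^ (2 * X.dim) := Nat.pow_le_pow_left (by omega) _
    have i3 : (2 * (m + 1) + 1) ^ (2 * X.dim + 1) ≤
        (2 * (m + X.dim + 2)) ^ (2 * X.dim + 1) := Nat.pow_le_pow_left (by omega) _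
    have i4 : (m + 2) ^ (b ^ 2) ≤ (m + X.dim + 2) ^ (b ^ 2) := Nat.pow_le_pow_left (by omega) _
    calc finrank W.K (W.H U) * ((2 * (m + 1 + X.dim) + 1) ^ (2 * X.dim + 1) *
          ((2 * (m + 1 + X.dim)) ^ (2 * X.dim) * b ^ (2 * X.dim) *
            (2 * (m + 1) + 1) ^ (2 * X.dim + 1) * (R * (m + 2) ^ (b ^ 2))))
        ≤ finrank W.K (W.H U) * ((2 * (m + X.dim + 2)) ^ (2 * X.dim + 1) *
          ((2 * (m + X.dim + 2)) ^ (2 * X.dim) * b ^ (2 * X.dim) *
            (2 * (m + X.dim + 2)) ^ (2 * X.dim + 1) * (R * (m + X.dim + 2) ^ (b ^ 2)))) := by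
          gcongr
      _ = _ := by
          have e3 : (2 * (m + X.dim + 2)) ^ (6 * X.dim + 2) = (2 * (m + X.dim + 2)) ^ (2 * X.dim + 1) *
              (2 * (m + X.dim + 2)) ^ (2 * X.dim) * (2 * (m + X.dim + 2)) ^ (2 * X.dim + 1) := by
            rw [← pow_add, ← pow_add]
            congr 1
            ring
          rw [e3]
          ring

/-- **The formula of Tate up to a polynomial factor in all codimensions.** -/
theorem all_codim [IsAlgClosed W.K] (hp : 1 < p) (Φ : FrobSystem W p) (σ : W.K →+* ℂ)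
    (hRH : ∀ Z : 𝒱.Obj, RiemannHyp Φ σ Z) (hX : AlgebraicDuality W X)
    {D : X.Cycles} (hD : X.IsCyc 1 D) (hbig : Big ops X D)
    {E : U.Cycles} (hE : U.IsCyc 1 E) (hbigE : Big ops U E) (n c : ℕ)
    (hc : c ≤ ((Y163.sq X n).prod U).dim) :
    TateUpTo Φ σ ((Y163.sq X n).prod U) c
      (finrank W.K (W.H U) * finrank W.K (W.H X) ^ (2 * X.dim) *
          (2 * (n + 2)) ^ (6 * X.dim + 2) * (n + 2) ^ (finrank W.K (W.H X) ^ 2)) := by
  have htr : W.tr X (W.cl X D ^ X.dim) ≠ 0 := hbig.tr hD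
  have htrE : W.tr U (W.cl U E ^ U.dim) ≠ 0 := hbigE.tr hE
  have hnum : numRank ops ((Y163.sq X n).prod U) c =
      kRank W ((Y163.sq X n).prod U) c (((Y163.sq X n).prod U).dim - c) :=
    numRank_eq (W := W) hc
  refine ⟨finrank W.K (genU Φ ((Y163.sq X n).prod U) c), _, poleOrderIs hp (hRH _) hc, rfl, ?_, ?_,
    ?_, betti_le_numRank hp Φ σ hRH hX hD hbig hE hbigE n hc⟩
  · obtain ⟨F, hF, hF2⟩ := exists_big hD htr n
    obtain ⟨F', hF', hF2'⟩ := exists_big_prod hF hF2 hF hF2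
    obtain ⟨G, hG, hG2⟩ := exists_big_prod hF' hF2' hE htrE
    rw [hnum]
    exact kRank_pos (V := (Y163.sq X n).prod U) hG hG2 (by omega)
  · rw [hnum]
    exact (kRank_le _ _).trans (Submodule.finrank_mono (span_le_genU Φ _ _))
  · refine Submodule.finrank_mono ?_
    intro x hx
    exact ((mem_genTate Φ).1 hx).2

end Pool.Agent.L7h85.AC
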