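import Pool.Agent.L7h85.AC.Dual

/-!
# The algebraic classes on the squares of powers, in all codimensions
-/

set_option autoImplicit false

open CategoryTheory AlgebraicGeometry CategoryTheory.Limits

universe u v

namespace Pool.Agent.L7h85.AC

open Pool.Agent.H914 Pool.Agent.H447 Pool.Agent.W534 Pool.Agent.Y163 VarClass Obj WeilCohomology
  Module

variable {k : Type u} [Field k] {𝒱 : VarClass k} {ops : CycleOps 𝒱}
  {W : WeilCohomology.{u, v} ops} {S U X Y Z : 𝒱.Obj} {p : ℕ}

section Lin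

variable {K : Type*} [Field K] {V' V₁ V₂ : Type*} [AddCommGroup V'] [Module K V']
  [AddCommGroup V₁] [Module K V₁] [AddCommGroup V₂] [Module K V₂]

/-- Comparison of the ranks of trace forms. -/
lemma nu_le_of (B : Subalgebra K (End K V')) (P : Submodule K (V₁ →ₗ[K] V₂))
    (Q : Submodule K (V₂ →ₗ[K] V₁)) (a : End K V' →ₗ[K] (V₁ →ₗ[K] V₂))
    (b : End K V' →ₗ[K] (V₂ →ₗ[K] V₁)) (ha : ∀ x ∈ B, a x ∈ P) (hb : ∀ x ∈ B, b x ∈ Q)
    [Module.Finite K V₁] [Module.Finite K V₂]
    (h : ∀ x ∈ B, ∀ y ∈ B, LinearMap.trace K V₁ (b y ∘ₗ a x) = LinearMap.trace K V' (y * x)) :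
    nu B ≤ mu P Q 1 1 := by
  let α : Subalgebra.toSubmodule B →ₗ[K] P :=
    (a ∘ₗ (Subalgebra.toSubmodule B).subtype).codRestrict P (fun x => ha x.1 x.2)
  let β : Subalgebra.toSubmodule B →ₗ[K] Q :=
    (b ∘ₗ (Subalgebra.toSubmodule B).subtype).codRestrict Q (fun x => hb x.1 x.2)
  have key : bt (Subalgebra.toSubmodule B) (Subalgebra.toSubmodule B) 1 1 =
      β.dualMap ∘ₗ bt P Q 1 1 ∘ₗ α := by
    apply LinearMap.ext
    intro x
    apply LinearMap.ext
    intro y
    exact (h x.1 x.2 y.1 y.2).symm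
  rw [nu, mu, key]
  exact finrank_range_comp_comp_le _ _ _

end Lin

/-- The rank of the intersection form on a square is the rank of a trace form. -/
theorem kRank_square {j l : ℕ} {r : ℤ} (hj : (j : ℤ) = Z.dim + r) (hl : (l : ℤ) = Z.dim - r)
    (hpar : par (W.isInternal Z) ∈ KOp W Z Z 0) :
    kRank W (Z.prod Z) j l = mu (KOp W Z Z r) (KOp W Z Z (-r)) 1 1 := by
  have hP : ∀ c ∈ spanCycles W (Z.prod Z) j, W.corr c ∈ KOp W Z Z r := by
    intro c hc
    rw [mem_KOp_iff]
    exact ⟨c, by rw [← hj]; exact hc, rfl⟩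
  have hQ : ∀ c ∈ spanCycles W (Z.prod Z) l,
      W.corr (W.map (swap Z Z) c) ∘ₗ par (W.isInternal Z) ∈ KOp W Z Z (-r) := by
    intro c hc
    refine KOp.cast (KOp.comp (d := 0) (e := -r) ?_ hpar) (by ring)
    rw [mem_KOp_iff]
    refine ⟨W.map (swap Z Z) c, ?_, rfl⟩
    have := map_span (swap Z Z) hc
    rwa [show ((l : ℕ) : ℤ) = Z.dim + -r by rw [hl]; ring] at this
  let eP : spanCycles W (Z.prod Z) j →ₗ[W.K] KOp W Z Z r :=
    { toFun := fun c => ⟨W.corr (c : W.H _), hP _ c.2⟩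
      map_add' := fun a b => Subtype.ext (corr_add W _ _)
      map_smul' := fun a b => Subtype.ext (corr_smul W _ _) }
  let eQ : spanCycles W (Z.prod Z) l →ₗ[W.K] KOp W Z Z (-r) :=
    { toFun := fun c => ⟨W.corr (W.map (swap Z Z) (c : W.H _)) ∘ₗ par (W.isInternal Z),
        hQ _ c.2⟩
      map_add' := fun a b => Subtype.ext (by
        change W.corr (W.map (swap Z Z) ((a : W.H _) + (b : W.H _))) ∘ₗ par (W.isInternal Z) = _
        rw [map_add, corr_add, LinearMap.add_comp]; rfl)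
      map_smul' := fun a b => Subtype.ext (by
        change W.corr (W.map (swap Z Z) (a • (b : W.H _))) ∘ₗ par (W.isInternal Z) = _
        rw [map_smul, corr_smul, LinearMap.smul_comp]; rfl) }
  have hePs : Function.Surjective eP := by
    rintro ⟨x, hx⟩
    obtain ⟨γ, hγ, rfl⟩ := mem_KOp_iff.1 hx
    rw [← hj] at hγ
    exact ⟨⟨γ, hγ⟩, rfl⟩
  have heQs : Function.Surjective eQ := by
    rintro ⟨y, hy⟩
    have hy' : y ∘ₗ par (W.isInternal Z) ∈ KOp W Z Z (-r) :=
      KOp.cast (KOp.comp hy hpar) (by ring)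
    obtain ⟨γ, hγ, hγ2⟩ := mem_KOp_iff.1 hy'
    have hγ' : W.map (swap Z Z) γ ∈ spanCycles W (Z.prod Z) l := by
      have := map_span (swap Z Z) hγ
      rwa [show (Z.dim : ℤ) + -r = ((l : ℕ) : ℤ) by rw [hl]; ring] at this
    refine ⟨⟨_, hγ'⟩, Subtype.ext ?_⟩
    change W.corr (W.map (swap Z Z) (W.map (swap Z Z) γ)) ∘ₗ par (W.isInternal Z) = y
    rw [map_swap_swap', hγ2, LinearMap.comp_assoc]
    have h1 : par (W.isInternal Z) ∘ₗ par (W.isInternal Z) = LinearMap.id := par_mul_self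
    rw [h1, LinearMap.comp_id]
  have key : pair W (Z.prod Z) j l =
      eQ.dualMap ∘ₗ bt (KOp W Z Z r) (KOp W Z Z (-r)) 1 1 ∘ₗ eP := by
    apply LinearMap.ext
    intro c
    apply LinearMap.ext
    intro d
    have e1 : (eQ.dualMap ∘ₗ bt (KOp W Z Z r) (KOp W Z Z (-r)) 1 1 ∘ₗ eP) c d =
        LinearMap.trace W.K (W.H Z) ((W.corr (W.map (swap Z Z) (d : W.H _)) ∘ₗ
          par (W.isInternal Z)) ∘ₗ W.corr (c : W.H _)) := rfl
    rw [e1, pair_apply, tr_mul_eq_trace' (span_gr c.2)]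
    have e2 : par (W.isInternal Z) ∘ₗ W.corr (c : W.H _) ∘ₗ
        W.corr (W.map (swap Z Z) (d : W.H _)) =
        (par (W.isInternal Z) ∘ₗ W.corr (c : W.H _)) ∘ₗ
        W.corr (W.map (swap Z Z) (d : W.H _)) := rfl
    rw [e2, LinearMap.trace_comp_comm']
    rfl
  rw [kRank, mu, key]
  have h1 : LinearMap.range (eQ.dualMap ∘ₗ bt (KOp W Z Z r) (KOp W Z Z (-r)) 1 1 ∘ₗ eP) =
      (LinearMap.range (bt (KOp W Z Z r) (KOp W Z Z (-r)) 1 1)).map eQ.dualMap := by
    rw [← LinearMap.comp_assoc, LinearMap.range_comp_of_range_eq_top _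
      (LinearMap.range_eq_top.2 hePs), LinearMap.range_comp]
  rw [h1]
  have hinj : Function.Injective eQ.dualMap :=
    LinearMap.dualMap_injective_of_surjective heQs
  exact LinearEquiv.finrank_eq (Submodule.equivMapOfInjective _ hinj _).symm

section Graded

variable (W) in
/-- The projection to the part of degree `e`. -/
noncomputable def pg (Z : 𝒱.Obj) (e : ℕ) : W.H Z →ₗ[W.K] W.gr Z e :=
  (proj (W.isInternal Z) e).codRestrict _ (proj_mem _ e)

lemma pg_coe (e : ℕ) (x : W.H Z) : (pg W Z e x : W.H Z) = proj (W.isInternal Z) e x := rfl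

lemma pg_of_mem {e : ℕ} (x : W.gr Z e) : pg W Z e x = x :=
  Subtype.ext (by rw [pg_coe, proj_same _ x.2])

variable (W) in
/-- The extension of an operator on the part of degree `e` by zero. -/
noncomputable def up (Z : 𝒱.Obj) (e : ℕ) (φ : Module.End W.K (W.gr Z e)) :
    Module.End W.K (W.H Z) := (W.gr Z e).subtype ∘ₗ φ ∘ₗ pg W Z e

lemma up_apply {e : ℕ} (φ : Module.End W.K (W.gr Z e)) (x : W.H Z) :
    up W Z e φ x = (φ (pg W Z e x) : W.H Z) := rfl

lemma up_mul {e : ℕ} (φ ψ : Module.End W.K (W.gr Z e)) :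
    up W Z e (φ * ψ) = up W Z e φ * up W Z e ψ := by
  apply LinearMap.ext
  intro x
  rw [Module.End.mul_apply, up_apply, up_apply, up_apply, pg_of_mem, Module.End.mul_apply]

lemma up_one (e : ℕ) : up W Z e 1 = proj (W.isInternal Z) e := rfl

lemma up_add {e : ℕ} (φ ψ : Module.End W.K (W.gr Z e)) :
    up W Z e (φ + ψ) = up W Z e φ + up W Z e ψ := by
  apply LinearMap.ext
  intro x
  rw [LinearMap.add_apply, up_apply, up_apply, up_apply, LinearMap.add_apply, Submodule.coe_add]

lemma up_smul {e : ℕ} (c : W.K) (φ : Module.End W.K (W.gr Z e)) :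
    up W Z e (c • φ) = c • up W Z e φ := by
  apply LinearMap.ext
  intro x
  rw [LinearMap.smul_apply, up_apply, up_apply, LinearMap.smul_apply, Submodule.coe_smul]

lemma trace_up {e : ℕ} (φ : Module.End W.K (W.gr Z e)) :
    LinearMap.trace W.K (W.H Z) (up W Z e φ) = LinearMap.trace W.K (W.gr Z e) φ := by
  rw [up, LinearMap.trace_comp_comm']
  congr 1
  apply LinearMap.ext
  intro x
  rw [LinearMap.comp_apply, LinearMap.comp_apply, Submodule.subtype_apply, pg_of_mem]

/-- The algebraic operators on the part of degree `e`. -/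
noncomputable def GAlg {e : ℕ} (hproj : proj (W.isInternal Z) e ∈ KOp W Z Z 0) :
    Subalgebra W.K (Module.End W.K (W.gr Z e)) where
  carrier := {φ | up W Z e φ ∈ KOp W Z Z 0}
  mul_mem' := fun {a b} ha hb => by
    change up W Z e (a * b) ∈ KOp W Z Z 0
    rw [up_mul]
    exact (KAlg W Z).mul_mem ha hb
  add_mem' := fun {a b} ha hb => by
    change up W Z e (a + b) ∈ KOp W Z Z 0
    rw [up_add]
    exact Submodule.add_mem _ ha hb
  algebraMap_mem' := fun r => by
    change up W Z e (algebraMap W.K _ r) ∈ KOp W Z Z 0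
    rw [Algebra.algebraMap_eq_smul_one, up_smul, up_one]
    exact Submodule.smul_mem _ _ hproj

variable (W) in
/-- The extension by zero as a linear map. -/
noncomputable def upL (Z : 𝒱.Obj) (e : ℕ) :
    Module.End W.K (W.gr Z e) →ₗ[W.K] Module.End W.K (W.H Z) where
  toFun φ := up W Z e φ
  map_add' := up_add
  map_smul' := up_smul

/-- The trace form of the operators of degree `e` and the correspondences of degree `e - dim`. -/
theorem nu_le_mu {e : ℕ} (hproj : proj (W.isInternal Z) e ∈ KOp W Z Z 0) (hD : Dual W Z) :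
    nu (GAlg hproj) ≤ mu (KOp W Z Z (e - Z.dim)) (KOp W Z Z (-(e - Z.dim))) 1 1 := by
  obtain ⟨F, hF, G, hG, hFG⟩ := hD e
  refine nu_le_of (GAlg hproj) _ _ (LinearMap.lcomp W.K _ G ∘ₗ upL W Z e)
    (LinearMap.llcomp W.K _ _ _ F ∘ₗ upL W Z e) ?_ ?_ ?_
  · intro x hx
    exact KOp.cast (KOp.comp (show up W Z e x ∈ KOp W Z Z 0 from hx) hG) (add_zero _)
  · intro x hx
    exact KOp.cast (KOp.comp hF (show up W Z e x ∈ KOp W Z Z 0 from hx)) (by ring)
  · intro x _ y _
    have e0 : (LinearMap.llcomp W.K _ _ _ F ∘ₗ upL W Z e) y ∘ₗ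
        (LinearMap.lcomp W.K _ G ∘ₗ upL W Z e) x =
        (F ∘ₗ up W Z e y) ∘ₗ (up W Z e x ∘ₗ G) := rfl
    have e3 : (F ∘ₗ up W Z e y) ∘ₗ (up W Z e x ∘ₗ G) =
        (F ∘ₗ up W Z e (y * x)) ∘ₗ G := by
      rw [up_mul]
      rfl
    have e4 : G ∘ₗ (F ∘ₗ up W Z e (y * x)) = up W Z e (y * x) := by
      apply LinearMap.ext
      intro v
      rw [LinearMap.comp_apply, LinearMap.comp_apply]
      exact hFG _ (by rw [up_apply]; exact Subtype.mem _)
    rw [e0, e3, LinearMap.trace_comp_comm', e4, trace_up]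

end Graded

section Pow

variable (W X) in
/-- The action of the permutations of the factors on the part of degree `e`. -/
noncomputable def rhoG (n e : ℕ) :
    Equiv.Perm (Fin (n + 1)) →* Module.End W.K (W.gr (Y163.pw X n) e) where
  toFun σ := pg W _ e ∘ₗ rho W X n σ ∘ₗ (W.gr _ e).subtype
  map_one' := by
    apply LinearMap.ext
    intro x
    rw [map_one, LinearMap.comp_apply, LinearMap.comp_apply, Module.End.one_apply,
      Submodule.subtype_apply, pg_of_mem, Module.End.one_apply]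
  map_mul' σ τ := by
    apply LinearMap.ext
    intro x
    apply Subtype.ext
    have h1 : rho W X n τ (x : W.H _) ∈ W.gr (Y163.pw X n) e := W.map_mem _ x.2
    simp only [map_mul, LinearMap.comp_apply, Module.End.mul_apply, Submodule.subtype_apply,
      pg_coe]
    rw [proj_same _ h1]

lemma up_rhoG (n e : ℕ) (σ : Equiv.Perm (Fin (n + 1))) :
    up W (Y163.pw X n) e (rhoG W X n e σ) = rho W X n σ * proj (W.isInternal _) e := by
  apply LinearMap.ext
  intro x
  have h1 : rho W X n σ (proj (W.isInternal _) e x) ∈ W.gr (Y163.pw X n) e :=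
    W.map_mem _ (proj_mem _ e x)
  rw [up_apply, Module.End.mul_apply]
  change proj (W.isInternal _) e (rho W X n σ (proj (W.isInternal _) e x)) = _
  rw [proj_same _ h1]

lemma rho_proj (n e : ℕ) (σ : Equiv.Perm (Fin (n + 1))) :
    rho W X n σ * proj (W.isInternal (Y163.pw X n)) e = proj (W.isInternal _) e * rho W X n σ := by
  apply gr_ext (W.isInternal _)
  intro i a ha
  have h1 : rho W X n σ a ∈ W.gr (Y163.pw X n) i := W.map_mem _ ha
  rw [Module.End.mul_apply, Module.End.mul_apply]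
  by_cases hi : i = e
  · subst hi
    rw [proj_same _ ha, proj_same _ h1]
  · rw [proj_ne _ ha hi, proj_ne _ h1 hi, map_zero]

lemma finrank_commG_le (n e : ℕ) : finrank W.K (comm (rhoG W X n e)) ≤
    (n + 2) ^ (finrank W.K (W.H X) ^ 2) := by
  refine le_trans ?_ (finrank_comm_le (W := W) (X := X) n)
  let L : comm (rhoG W X n e) →ₗ[W.K] comm (rho W X n) :=
    { toFun := fun φ => ⟨up W _ e φ.1, fun σ => by
        have h1 : proj (W.isInternal (Y163.pw X n)) e * up W _ e φ.1 = up W _ e φ.1 := by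
          rw [← up_one, ← up_mul, one_mul]
        have h2 : up W _ e φ.1 * proj (W.isInternal (Y163.pw X n)) e = up W _ e φ.1 := by
          rw [← up_one, ← up_mul, mul_one]
        calc up W _ e φ.1 * rho W X n σ
            = up W _ e φ.1 * (proj (W.isInternal (Y163.pw X n)) e * rho W X n σ) := by
              rw [← mul_assoc, h2]
          _ = up W _ e φ.1 * up W _ e (rhoG W X n e σ) := by rw [← rho_proj, up_rhoG]
          _ = up W _ e (rhoG W X n e σ) * up W _ e φ.1 := by rw [← up_mul, φ.2 σ, up_mul]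
          _ = rho W X n σ * (proj (W.isInternal (Y163.pw X n)) e * up W _ e φ.1) := by
              rw [up_rhoG, mul_assoc]
          _ = _ := by rw [h1]⟩
      map_add' := fun a b => Subtype.ext (up_add _ _)
      map_smul' := fun c a => Subtype.ext (up_smul _ _) }
  refine LinearMap.finrank_le_finrank_of_injective (f := L) ?_
  intro φ ψ h
  apply Subtype.ext
  apply LinearMap.ext
  intro x
  apply Subtype.ext
  have h1 : up W _ e φ.1 (x : W.H _) = up W _ e ψ.1 (x : W.H _) :=
    congrArg (fun f : comm (rho W X n) => f.1 (x : W.H _)) h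
  rwa [up_apply, up_apply, pg_of_mem] at h1

/-- **The growth in every degree.** -/
theorem growthG [IsAlgClosed W.K] {n e : ℕ}
    (hproj : proj (W.isInternal (Y163.pw X n)) e ∈ KOp W _ _ 0) :
    finrank W.K (W.gr (Y163.pw X n) e) ^ 2 ≤
      nu (GAlg hproj) * (n + 2) ^ (finrank W.K (W.H X) ^ 2) := by
  have h1 := sq_le_nu_mul (rhoG W X n e) (GAlg hproj) (fun σ => by
    change up W _ e (rhoG W X n e σ) ∈ KOp W _ _ 0
    rw [up_rhoG]
    exact (KAlg W _).mul_mem (rho_mem n σ) hproj)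
  exact h1.trans (Nat.mul_le_mul_left _ (finrank_commG_le n e))

/-- **The ranks of the cycles on the squares.** -/
theorem sq_le_numRank [IsAlgClosed W.K] (hp : 1 < p) (Φ : FrobSystem W p) (σ : W.K →+* ℂ)
    (hRH : ∀ Z : 𝒱.Obj, RiemannHyp Φ σ Z) (hX : Dual W X) (n : ℕ) {e : ℕ}
    (he : e ≤ (Y163.sq X n).dim) :
    finrank W.K (W.gr (Y163.pw X n) e) ^ 2 ≤
      numRank ops (Y163.sq X n) e * (n + 2) ^ (finrank W.K (W.H X) ^ 2) := by
  have hproj := proj_mem_of_RH Φ hp σ (hRH (Y163.pw X n)) e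
  have hpar := par_mem_of_RH Φ hp σ (hRH (Y163.pw X n))
  have hdim : (Y163.sq X n).dim = (Y163.pw X n).dim + (Y163.pw X n).dim := by
    rw [Y163.sq, dim_prod]
  refine (growthG hproj).trans (Nat.mul_le_mul_right _ ?_)
  rw [numRank_eq (W := W) he]
  have h1 := kRank_square (W := W) (Z := Y163.pw X n) (j := e) (l := (Y163.sq X n).dim - e)
    (r := e - (Y163.pw X n).dim) (by ring) (by omega) hpar
  rw [Y163.sq] at h1 ⊢
  rw [h1]
  exact nu_le_mu hproj (Dual.pw hp Φ σ hRH hX n)

end Pow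

end Pool.Agent.L7h85.AC
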