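import Pool.Agent.Y163.TateC
import Pool.Agent.R934.Poly

/-!
# The Kunneth projectors and the duality of products
-/

set_option autoImplicit false

open CategoryTheory AlgebraicGeometry CategoryTheory.Limits

universe u v

namespace Pool.Agent.L7h85.AC

open Pool.Agent.H914 Pool.Agent.H447 Pool.Agent.W534 Pool.Agent.Y163 VarClass Obj WeilCohomology
  Module

variable {k : Type u} [Field k] {𝒱 : VarClass k} {ops : CycleOps 𝒱}
  {W : WeilCohomology.{u, v} ops} {S U X Y Z : 𝒱.Obj} {p : ℕ} (Φ : FrobSystem W p)

open Polynomial in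
/-- The Riemann hypothesis implies that the Kunneth projectors are algebraic. -/
theorem proj_mem_of_RH [IsAlgClosed W.K] (hp : 1 < p) (σ : W.K →+* ℂ) (hRH : RiemannHyp Φ σ Z)
    (i₀ : ℕ) : proj (W.isInternal Z) i₀ ∈ KOp W Z Z 0 := by
  classical
  set F := frob Φ Z 1 with hF
  have hFmem : F ∈ KAlg W Z := map_mem_KOp _
  have hq1 : (1 : ℝ) < (card Φ Z 1 : ℝ) := by
    have : 1 < card Φ Z 1 := Nat.one_lt_pow (Nat.mul_pos (Φ.e_pos Z) one_pos).ne' hp
    exact_mod_cast this
  -- the characteristic polynomials are pairwise coprime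
  have hcop : ∀ i j, i ≠ j → IsCoprime (frobOn Φ Z 1 i).charpoly (frobOn Φ Z 1 j).charpoly := by
    intro i j hij
    rw [Polynomial.isCoprime_iff_aeval_ne_zero_of_isAlgClosed W.K W.K]
    intro a
    by_contra hcon
    push Not at hcon
    obtain ⟨h1, h2⟩ := hcon
    have hroot : ∀ i, aeval a (frobOn Φ Z 1 i).charpoly = 0 →
        ‖σ a‖ ^ 2 = (card Φ Z 1 : ℝ) ^ i := by
      intro i h
      apply hRH 1 one_pos i (σ a)
      rw [frobPoly_eq, IsRoot.def, Polynomial.eval_map, Polynomial.eval₂_at_apply,
        ← Polynomial.coe_aeval_eq_eval, h, map_zero]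
    have h3 := (hroot i h1).symm.trans (hroot j h2)
    exact hij (pow_right_injective₀ (by linarith) hq1.ne' h3)
  have hkill : ∀ i, ∀ x ∈ W.gr Z i, aeval F (frobOn Φ Z 1 i).charpoly x = 0 := by
    intro i x hx
    have h1 := LinearMap.aeval_self_charpoly (frobOn Φ Z 1 i)
    have h2 : ∀ P : W.K[X], ((aeval (frobOn Φ Z 1 i) P ⟨x, hx⟩ : W.gr Z i) : W.H Z) =
        aeval F P x := by
      intro P
      induction P using Polynomial.induction_on' with
      | add P Q hP hQ =>
        rw [map_add, map_add, LinearMap.add_apply, LinearMap.add_apply, Submodule.coe_add, hP, hQ]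
      | monomial n c =>
        have h3 : ∀ n : ℕ, ((((frobOn Φ Z 1 i) ^ n) ⟨x, hx⟩ : W.gr Z i) : W.H Z) =
            (F ^ n) x := by
          intro n
          induction n with
          | zero => rfl
          | succ n ih =>
            rw [pow_succ', pow_succ', Module.End.mul_apply, Module.End.mul_apply, ← ih]
            rfl
        rw [aeval_monomial, aeval_monomial, Module.End.mul_apply, Module.End.mul_apply,
          Module.algebraMap_end_apply, Module.algebraMap_end_apply, Submodule.coe_smul, h3]
    rw [← h2, h1]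
    rfl
  set N := 2 * Z.dim + 1 with hN
  set A : W.K[X] := ∏ i ∈ (Finset.range N).erase i₀, (frobOn Φ Z 1 i).charpoly with hA
  set B : W.K[X] := (frobOn Φ Z 1 i₀).charpoly with hB
  have hAB : IsCoprime A B := by
    rw [hA, hB]
    apply IsCoprime.prod_left
    intro i hi
    exact hcop i i₀ (Finset.ne_of_mem_erase hi)
  obtain ⟨a, b, hab⟩ := hAB
  have hkA : ∀ i, i < N → i ≠ i₀ → ∀ x ∈ W.gr Z i, aeval F A x = 0 := by
    intro i hi hev x hx
    obtain ⟨Q, hQ⟩ := Finset.dvd_prod_of_mem (fun i => (frobOn Φ Z 1 i).charpoly)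
      (Finset.mem_erase.2 ⟨hev, Finset.mem_range.2 hi⟩)
    rw [hA, hQ, mul_comm, map_mul, Module.End.mul_apply, hkill i x hx, map_zero]
  have hpar : proj (W.isInternal Z) i₀ = aeval F (a * A) := by
    apply gr_ext (W.isInternal Z)
    intro i x hx
    by_cases hi : i < N
    · by_cases hev : i = i₀
      · subst hev
        have h1 := congrArg (fun P => aeval F P x) hab
        simp only [map_add, map_mul, map_one, LinearMap.add_apply, Module.End.mul_apply,
          Module.End.one_apply] at h1
        rw [hB, hkill i x hx, map_zero, add_zero] at h1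
        rw [proj_same _ hx, map_mul, Module.End.mul_apply, h1]
      · rw [proj_ne _ hx hev, map_mul, Module.End.mul_apply, hkA i hi hev x hx, map_zero]
    · rw [W.gr_eq_bot Z i (by omega)] at hx
      rw [(Submodule.mem_bot _).1 hx]
      simp
  rw [hpar]
  have hmem : ∀ P : W.K[X], aeval F P ∈ KAlg W Z := by
    intro P
    have h1 : aeval F P = ((aeval (⟨F, hFmem⟩ : KAlg W Z) P : KAlg W Z) :
        Module.End W.K (W.H Z)) := by
      rw [← Subalgebra.coe_val, ← Polynomial.aeval_algHom_apply]
      rfl
    rw [h1]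
    exact Subtype.mem _
  exact hmem _

end Pool.Agent.L7h85.AC
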